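import Pool.Agent.N658.FF.Stm3

/-! # Project FF2: the transfer of energy by the projection onto a ground space is local -/

set_option autoImplicit false

open scoped BigOperators InnerProductSpace Classical

noncomputable section

namespace Pool.Agent.N49.FF

open Pool.Agent.N658.FF

/-! ### Neighbourhoods -/

section nb

variable {T : Type} [Fintype T] [DecidableEq T] (adj : T → T → Prop)

lemma mem_Nb_succ (j : ℕ) (S : Finset T) (y : T) :
    y ∈ Nb adj (j + 1) S ↔ y ∈ Nb adj j S ∨ ∃ x ∈ Nb adj j S, adj x y := by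
  rw [Nb, Finset.mem_union, Finset.mem_filter]
  simp

lemma Nb_le {i j : ℕ} (h : i ≤ j) (S : Finset T) : Nb adj i S ⊆ Nb adj j S := by
  induction j, h using Nat.le_induction with
  | base => exact Finset.Subset.refl _
  | succ j _ ih => exact ih.trans fun y hy => (mem_Nb_succ adj j S y).2 (Or.inl hy)

lemma Nb_mono (j : ℕ) {S S' : Finset T} (h : S ⊆ S') : Nb adj j S ⊆ Nb adj j S' := by
  induction j with
  | zero => exact h
  | succ j ih =>
    intro y hy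
    rw [mem_Nb_succ] at hy ⊢
    rcases hy with hy | ⟨x, hx, hxy⟩
    · exact Or.inl (ih hy)
    · exact Or.inr ⟨x, ih hx, hxy⟩

lemma Nb_one (j : ℕ) (S : Finset T) : Nb adj j (Nb adj 1 S) ⊆ Nb adj (j + 1) S := by
  induction j with
  | zero => exact Finset.Subset.refl _
  | succ j ih =>
    intro y hy
    rw [mem_Nb_succ] at hy ⊢
    rcases hy with hy | ⟨x, hx, hxy⟩
    · exact Or.inl (ih hy)
    · exact Or.inr ⟨x, ih hx, hxy⟩

variable {adj}

lemma Nb_symm (hs : ∀ x y, adj x y → adj y x) (j : ℕ) : ∀ x y : T, y ∈ Nb adj j {x} → x ∈ Nb adj j {y} := by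
  induction j with
  | zero =>
    intro x y h
    rw [Nb, Finset.mem_singleton] at h ⊢
    exact h.symm
  | succ j ih =>
    intro x y h
    rw [mem_Nb_succ] at h
    rcases h with h | ⟨z, hz, hzy⟩
    · exact Nb_le adj (Nat.le_succ j) _ (ih x y h)
    · have h1 : x ∈ Nb adj j {z} := ih x z hz
      have h2 : ({z} : Finset T) ⊆ Nb adj 1 {y} := by
        rw [Finset.singleton_subset_iff, mem_Nb_succ]
        exact Or.inr ⟨y, by rw [Nb]; exact Finset.mem_singleton_self y, hs z y hzy⟩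
      exact Nb_one adj j {y} (Nb_mono adj j h2 h1)

end nb

/-! ### Elementary inequalities -/

lemma cs2 {p r s t P R : ℝ} (hs : 0 ≤ s) (ht : 0 ≤ t) (hP : 0 ≤ P) (hR : 0 ≤ R) (h1 : p ^ 2 ≤ s * P)
    (h2 : r ^ 2 ≤ t * R) : (p + r) ^ 2 ≤ (s + t) * (P + R) := by
  have h := Finset.sum_sq_le_sum_mul_sum_of_sq_le_mul (Finset.univ : Finset (Fin 2)) (r := ![p, r])
    (f := ![s, t]) (g := ![P, R]) (by intro i _; fin_cases i <;> simpa)
    (by intro i _; fin_cases i <;> simpa) (by intro i _; fin_cases i <;> simpa)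
  simpa [Fin.sum_univ_two] using h

lemma cs_sum {ι : Type} (I : Finset ι) (w a : ι → ℝ) (hw : ∀ i, 0 ≤ w i) :
    (∑ i ∈ I, w i * a i) ^ 2 ≤ (∑ i ∈ I, w i) * ∑ i ∈ I, w i * a i ^ 2 := by
  apply Finset.sum_sq_le_sum_mul_sum_of_sq_le_mul
  · intro i _; exact hw i
  · intro i _; exact mul_nonneg (hw i) (sq_nonneg _)
  · intro i _; exact le_of_eq (by ring)

lemma geo {q : ℝ} (h0 : 0 ≤ q) (h1 : q < 1) (K : ℕ) : ∑ k ∈ Finset.range K, q ^ k ≤ 1 / (1 - q) := by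
  have h2 := mul_neg_geom_sum q K
  rw [le_div_iff₀ (by linarith), mul_comm, h2]
  have : 0 ≤ q ^ K := pow_nonneg h0 K
  linarith

lemma geo2 {q : ℝ} (h0 : 0 ≤ q) (h1 : q < 1) (c : ℕ) : ∃ D : ℝ, 0 ≤ D ∧ ∀ K : ℕ,
    ∑ k ∈ Finset.range K, q ^ k * (((((k + 1) * c : ℕ) : ℝ) + 1) ^ 2) ≤ D := by
  have hq : ‖q‖ < 1 := by rwa [Real.norm_of_nonneg h0]
  have s2 := summable_pow_mul_geometric_of_norm_lt_one 2 hq
  have s1 := summable_pow_mul_geometric_of_norm_lt_one 1 hq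
  have s0 := summable_pow_mul_geometric_of_norm_lt_one 0 hq
  have hs : Summable (fun k : ℕ => q ^ k * (((((k + 1) * c : ℕ) : ℝ) + 1) ^ 2)) := by
    have h3 := ((s2.mul_left ((c : ℝ) ^ 2)).add (s1.mul_left (2 * (c : ℝ) * (c + 1)))).add
      (s0.mul_left (((c : ℝ) + 1) ^ 2))
    refine h3.congr fun k => ?_
    push_cast
    ring
  refine ⟨∑' k : ℕ, q ^ k * (((((k + 1) * c : ℕ) : ℝ) + 1) ^ 2), tsum_nonneg fun k => by positivity, ?_⟩
  intro K
  exact hs.sum_le_tsum _ fun k _ => by positivity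

/-! ### Projections -/

section proj

variable {E : Type} [NormedAddCommGroup E] [InnerProductSpace ℂ E] [FiniteDimensional ℂ E]
variable {T : Type}

lemma G_anti (V : T → Submodule ℂ E) {A B : Finset T} (h : A ⊆ B) : G V B ≤ G V A := by
  unfold G
  exact biInf_mono fun x hx => h hx

lemma G_le (V : T → Submodule ℂ E) {A : Finset T} {x : T} (h : x ∈ A) : G V A ≤ V x := by
  unfold G
  exact biInf_le _ h

lemma pr_mem (K : Submodule ℂ E) (v : E) : pr K v ∈ K := Submodule.starProjection_apply_mem K v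

lemma pr_self {K : Submodule ℂ E} {v : E} (h : v ∈ K) : pr K v = v :=
  Submodule.starProjection_eq_self_iff.2 h

lemma pr_le (K : Submodule ℂ E) (v : E) : ‖pr K v‖ ≤ ‖v‖ := Submodule.norm_starProjection_apply_le K v

lemma sub_pr_le (K : Submodule ℂ E) (v : E) : ‖v - pr K v‖ ≤ ‖v‖ := by
  have h := Submodule.norm_starProjection_apply_le Kᗮ v
  rwa [Submodule.starProjection_orthogonal_val] at h

lemma gap_eps {V : T → Submodule ℂ E} {Δ : ℝ} (hg : Gap V Δ) (Z : Finset T) (u : E) :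
    Δ * ‖u - pr (G V Z) u‖ ^ 2 ≤ ∑ y ∈ Z, eps V y u := by
  refine (hg Z _ (Submodule.sub_starProjection_mem_orthogonal u)).trans (le_of_eq ?_)
  apply Finset.sum_congr rfl
  intro y hy
  unfold eps
  have h1 : pr (V y) (pr (G V Z) u) = pr (G V Z) u := pr_self (G_le V hy (pr_mem _ _))
  have h2 : u - pr (G V Z) u - pr (V y) (u - pr (G V Z) u) = u - pr (V y) u := by
    rw [map_sub, h1]
    abel
  show ‖u - pr (G V Z) u - pr (V y) (u - pr (G V Z) u)‖ ^ 2 = _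
  rw [h2]

end proj

section main

variable {E : Type} [NormedAddCommGroup E] [InnerProductSpace ℂ E] [FiniteDimensional ℂ E]
variable {T : Type} [Fintype T] [DecidableEq T]

/-- the distance to the ground space of the neighbourhood -/
def ee (V : T → Submodule ℂ E) (adj : T → T → Prop) (c : ℕ) (x : T) (u : E) (k : ℕ) : ℝ :=
  ‖u - pr (G V (Nb adj (k * c) {x})) u‖

lemma norm_bd (V : T → Submodule ℂ E) (adj : T → T → Prop) (c : ℕ) (q : ℝ) (A : Finset T) (x : T)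
    (hcone : ∀ k : ℕ, ∀ v ∈ G V (Nb adj (k * c) {x}), ‖pr (G V A) v - pr (V x) (pr (G V A) v)‖ ≤ q ^ k * ‖v‖)
    (hq : 0 ≤ q) (K : ℕ) (u : E) :
    ‖pr (G V A) u - pr (V x) (pr (G V A) u)‖ ≤
      ee V adj c x u 0 + ∑ k ∈ Finset.range K, q ^ k * ee V adj c x u (k + 1) + q ^ K * ‖u‖ := by
  set f : ℕ → E := fun k => pr (G V (Nb adj (k * c) {x})) u with hf
  let L : E →L[ℂ] E := pr (G V A) - (pr (V x)).comp (pr (G V A))
  have hL : ∀ v, L v = pr (G V A) v - pr (V x) (pr (G V A) v) := fun v => rfl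
  have hL1 : ∀ v, ‖L v‖ ≤ ‖v‖ := by
    intro v
    rw [hL]
    exact (sub_pr_le _ _).trans (pr_le _ _)
  have hdec : u = (u - f 0) + (∑ k ∈ Finset.range K, (f k - f (k + 1))) + f K := by
    rw [Finset.sum_range_sub']
    abel
  have hstep : ∀ k, ‖L (f k - f (k + 1))‖ ≤ q ^ k * ee V adj c x u (k + 1) := by
    intro k
    have hsub : G V (Nb adj ((k + 1) * c) {x}) ≤ G V (Nb adj (k * c) {x}) :=
      G_anti V (Nb_le adj (Nat.mul_le_mul_right c (Nat.le_succ k)) _)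
    have h1 : f (k + 1) ∈ G V (Nb adj (k * c) {x}) := hsub (pr_mem _ _)
    have h2 : f k - f (k + 1) ∈ G V (Nb adj (k * c) {x}) := Submodule.sub_mem _ (pr_mem _ _) h1
    have h3 : f k - f (k + 1) = pr (G V (Nb adj (k * c) {x})) (u - f (k + 1)) := by
      rw [map_sub, pr_self h1]
    have h4 : ‖f k - f (k + 1)‖ ≤ ee V adj c x u (k + 1) := by
      rw [h3]
      exact pr_le _ _
    rw [hL]
    exact (hcone k _ h2).trans (mul_le_mul_of_nonneg_left h4 (pow_nonneg hq k))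
  have hlast : ‖L (f K)‖ ≤ q ^ K * ‖u‖ := by
    rw [hL]
    exact (hcone K _ (pr_mem _ _)).trans (mul_le_mul_of_nonneg_left (pr_le _ _) (pow_nonneg hq K))
  rw [← hL]
  calc ‖L u‖ = ‖L (u - f 0) + (∑ k ∈ Finset.range K, L (f k - f (k + 1))) + L (f K)‖ := by
        rw [← map_sum, ← map_add, ← map_add, ← hdec]
    _ ≤ ‖L (u - f 0)‖ + ‖∑ k ∈ Finset.range K, L (f k - f (k + 1))‖ + ‖L (f K)‖ := norm_add₃_le
    _ ≤ ee V adj c x u 0 + ∑ k ∈ Finset.range K, q ^ k * ee V adj c x u (k + 1) + q ^ K * ‖u‖ := by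
        refine add_le_add (add_le_add (hL1 _) ?_) hlast
        exact (norm_sum_le _ _).trans (Finset.sum_le_sum fun k _ => hstep k)

lemma eps_bd (V : T → Submodule ℂ E) (adj : T → T → Prop) (c : ℕ) (q : ℝ) (A : Finset T) (x : T)
    (hcone : ∀ k : ℕ, ∀ v ∈ G V (Nb adj (k * c) {x}), ‖pr (G V A) v - pr (V x) (pr (G V A) v)‖ ≤ q ^ k * ‖v‖)
    (hq : 0 ≤ q) (hq1 : q < 1) (K : ℕ) (u : E) :
    eps V x (pr (G V A) u) ≤ (1 + 1 / (1 - q)) *
      (ee V adj c x u 0 ^ 2 + ∑ k ∈ Finset.range K, q ^ k * ee V adj c x u (k + 1) ^ 2 + q ^ K * ‖u‖ ^ 2) := by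
  have h1 := norm_bd V adj c q A x hcone hq K u
  have hqk : ∀ k : ℕ, 0 ≤ q ^ k := fun k => pow_nonneg hq k
  set y := ∑ k ∈ Finset.range K, q ^ k * ee V adj c x u (k + 1) with hy
  set Y := ∑ k ∈ Finset.range K, q ^ k * ee V adj c x u (k + 1) ^ 2 with hY
  set s := ∑ k ∈ Finset.range K, q ^ k with hs
  have hYn : 0 ≤ Y := Finset.sum_nonneg fun k _ => mul_nonneg (hqk k) (sq_nonneg _)
  have hsn : 0 ≤ s := Finset.sum_nonneg fun k _ => hqk k
  have c1 : y ^ 2 ≤ s * Y := cs_sum _ _ _ hqk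
  have c2 : (ee V adj c x u 0 + y) ^ 2 ≤ (1 + s) * (ee V adj c x u 0 ^ 2 + Y) :=
    cs2 zero_le_one hsn (sq_nonneg _) hYn (by rw [one_mul]) c1
  have c3 : (ee V adj c x u 0 + y + q ^ K * ‖u‖) ^ 2 ≤
      (1 + s + q ^ K) * (ee V adj c x u 0 ^ 2 + Y + q ^ K * ‖u‖ ^ 2) :=
    cs2 (by positivity) (hqk K) (by positivity) (by positivity) c2 (le_of_eq (by ring))
  have c4 : 1 + s + q ^ K ≤ 1 + 1 / (1 - q) := by
    have := geo hq hq1 (K + 1)
    rw [Finset.sum_range_succ] at this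
    linarith
  unfold eps
  calc ‖pr (G V A) u - pr (V x) (pr (G V A) u)‖ ^ 2 ≤ (ee V adj c x u 0 + y + q ^ K * ‖u‖) ^ 2 :=
        pow_le_pow_left₀ (norm_nonneg _) h1 2
    _ ≤ _ := c3
    _ ≤ _ := mul_le_mul_of_nonneg_right c4 (by positivity)

lemma exchange {V : T → Submodule ℂ E} {adj : T → T → Prop} (hs : ∀ x y, adj x y → adj y x) {Γ : ℝ}
    (hG : Grow adj Γ) (N : Finset T) {j J : ℕ} (hj : j ≤ J) (u : E) :
    ∑ x ∈ N, ∑ y ∈ Nb adj j {x}, eps V y u ≤ |Γ| * ((j : ℝ) + 1) ^ 2 * ∑ y ∈ Nb adj J N, eps V y u := by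
  have heps : ∀ y, 0 ≤ eps V y u := fun y => sq_nonneg _
  have h1 : ∀ x ∈ N, ∑ y ∈ Nb adj j {x}, eps V y u =
      ∑ y ∈ Nb adj J N, if y ∈ Nb adj j {x} then eps V y u else 0 := by
    intro x hx
    rw [← Finset.sum_filter]
    congr 1
    ext y
    rw [Finset.mem_filter]
    constructor
    · intro hy
      exact ⟨Nb_le adj hj N (Nb_mono adj j (Finset.singleton_subset_iff.2 hx) hy), hy⟩
    · exact fun h => h.2
  rw [Finset.sum_congr rfl h1, Finset.sum_comm, Finset.mul_sum]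
  apply Finset.sum_le_sum
  intro y _
  rw [← Finset.sum_filter, Finset.sum_const, nsmul_eq_mul]
  apply mul_le_mul_of_nonneg_right _ (heps y)
  have h2 : (N.filter fun x => y ∈ Nb adj j {x}) ⊆ Nb adj j {y} := by
    intro x hx
    rw [Finset.mem_filter] at hx
    exact Nb_symm hs j x y hx.2
  calc (((N.filter fun x => y ∈ Nb adj j {x}).card : ℕ) : ℝ) ≤ ((Nb adj j {y}).card : ℝ) := by
        exact_mod_cast Finset.card_le_card h2
    _ ≤ Γ * ((j : ℝ) + 1) ^ 2 := hG y j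
    _ ≤ |Γ| * ((j : ℝ) + 1) ^ 2 := mul_le_mul_of_nonneg_right (le_abs_self _) (by positivity)

end main

theorem trans (h0 : StmColor) (h1 : StmCone) : StmTrans := by
  intro g Δ Γ hΔ
  set q : ℝ := Real.sqrt ((g : ℝ) ^ 2 / ((g : ℝ) ^ 2 + Δ)) with hqdef
  have hq : 0 ≤ q := Real.sqrt_nonneg _
  have hq1 : q < 1 := by
    rw [hqdef, Real.sqrt_lt' one_pos, one_pow, div_lt_one (by positivity)]
    linarith
  obtain ⟨D, hD0, hD⟩ := geo2 hq hq1 (g + 1)
  set S : ℝ := 1 + 1 / (1 - q) with hS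
  have hSp : 0 < S := by
    have : 0 < 1 - q := by linarith
    positivity
  refine ⟨S * (Δ⁻¹ * |Γ| * (1 + D) + 1), by positivity, ?_⟩
  intro E _ _ _ T _ _ V adj hloc hgap hgrow A N K u
  obtain ⟨col, hcol⟩ := h0 T adj hloc.symm g (by convert hloc.deg)
  have hcone : ∀ x : T, ∀ k : ℕ, ∀ v ∈ G V (Nb adj (k * (g + 1)) {x}),
      ‖pr (G V A) v - pr (V x) (pr (G V A) v)‖ ≤ q ^ k * ‖v‖ := by
    intro x k v hv
    have h2 := h1 E T V adj g Δ hloc hΔ.le hgap (g + 1) col hcol A {x} k v hv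
    have h3 : G V {x} = V x := by
      unfold G
      simp
    rwa [h3] at h2
  set EW : ℝ := ∑ y ∈ Nb adj (K * (g + 1)) N, eps V y u with hEW
  have hEW0 : 0 ≤ EW := Finset.sum_nonneg fun y _ => sq_nonneg _
  have hee : ∀ x k, ee V adj (g + 1) x u k ^ 2 ≤ Δ⁻¹ * ∑ y ∈ Nb adj (k * (g + 1)) {x}, eps V y u := by
    intro x k
    have h2 := gap_eps hgap (Nb adj (k * (g + 1)) {x}) u
    rw [inv_mul_eq_div, le_div_iff₀ hΔ, mul_comm]
    exact h2
  have hsum : ∀ k, k ≤ K → ∑ x ∈ N, ee V adj (g + 1) x u k ^ 2 ≤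
      Δ⁻¹ * |Γ| * ((((k * (g + 1) : ℕ) : ℝ) + 1) ^ 2) * EW := by
    intro k hk
    calc ∑ x ∈ N, ee V adj (g + 1) x u k ^ 2
        ≤ ∑ x ∈ N, Δ⁻¹ * ∑ y ∈ Nb adj (k * (g + 1)) {x}, eps V y u := Finset.sum_le_sum fun x _ => hee x k
      _ = Δ⁻¹ * ∑ x ∈ N, ∑ y ∈ Nb adj (k * (g + 1)) {x}, eps V y u := by rw [Finset.mul_sum]
      _ ≤ Δ⁻¹ * (|Γ| * ((((k * (g + 1) : ℕ) : ℝ) + 1) ^ 2) * EW) := by
          apply mul_le_mul_of_nonneg_left _ (by positivity)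
          exact exchange hloc.symm hgrow N (Nat.mul_le_mul_right _ hk) u
      _ = _ := by ring
  have t0 : ∑ x ∈ N, ee V adj (g + 1) x u 0 ^ 2 ≤ Δ⁻¹ * |Γ| * EW := by
    have := hsum 0 (Nat.zero_le K)
    simpa using this
  have t1 : ∑ x ∈ N, ∑ k ∈ Finset.range K, q ^ k * ee V adj (g + 1) x u (k + 1) ^ 2 ≤
      Δ⁻¹ * |Γ| * D * EW := by
    rw [Finset.sum_comm]
    calc ∑ k ∈ Finset.range K, ∑ x ∈ N, q ^ k * ee V adj (g + 1) x u (k + 1) ^ 2
        ≤ ∑ k ∈ Finset.range K, q ^ k * (Δ⁻¹ * |Γ| * (((((k + 1) * (g + 1) : ℕ) : ℝ) + 1) ^ 2) * EW) := by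
          apply Finset.sum_le_sum
          intro k hk
          rw [← Finset.mul_sum]
          exact mul_le_mul_of_nonneg_left (hsum (k + 1) (Finset.mem_range.1 hk)) (pow_nonneg hq k)
      _ = Δ⁻¹ * |Γ| * EW * ∑ k ∈ Finset.range K, q ^ k * (((((k + 1) * (g + 1) : ℕ) : ℝ) + 1) ^ 2) := by
          rw [Finset.mul_sum]
          exact Finset.sum_congr rfl fun k _ => by ring
      _ ≤ Δ⁻¹ * |Γ| * EW * D := mul_le_mul_of_nonneg_left (hD K) (by positivity)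
      _ = _ := by ring
  calc ∑ x ∈ N, eps V x (pr (G V A) u)
      ≤ ∑ x ∈ N, S * (ee V adj (g + 1) x u 0 ^ 2 +
          ∑ k ∈ Finset.range K, q ^ k * ee V adj (g + 1) x u (k + 1) ^ 2 + q ^ K * ‖u‖ ^ 2) :=
        Finset.sum_le_sum fun x _ => eps_bd V adj (g + 1) q A x (hcone x) hq hq1 K u
    _ = S * (∑ x ∈ N, ee V adj (g + 1) x u 0 ^ 2 +
          ∑ x ∈ N, ∑ k ∈ Finset.range K, q ^ k * ee V adj (g + 1) x u (k + 1) ^ 2 +
          N.card * q ^ K * ‖u‖ ^ 2) := by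
        rw [← Finset.mul_sum, Finset.sum_add_distrib, Finset.sum_add_distrib, Finset.sum_const, nsmul_eq_mul]
        ring
    _ ≤ S * (Δ⁻¹ * |Γ| * EW + Δ⁻¹ * |Γ| * D * EW + N.card * q ^ K * ‖u‖ ^ 2) := by
        apply mul_le_mul_of_nonneg_left _ hSp.le
        linarith
    _ ≤ S * (Δ⁻¹ * |Γ| * (1 + D) + 1) * (EW + N.card * q ^ K * ‖u‖ ^ 2) := by
        have h5 : 0 ≤ N.card * q ^ K * ‖u‖ ^ 2 := by positivity
        have h6 : 0 ≤ Δ⁻¹ * |Γ| * (1 + D) := by positivity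
        have h7 : Δ⁻¹ * |Γ| * EW + Δ⁻¹ * |Γ| * D * EW + N.card * q ^ K * ‖u‖ ^ 2 ≤
            (Δ⁻¹ * |Γ| * (1 + D) + 1) * (EW + N.card * q ^ K * ‖u‖ ^ 2) := by
          nlinarith [mul_nonneg h6 h5]
        calc S * _ ≤ S * ((Δ⁻¹ * |Γ| * (1 + D) + 1) * (EW + N.card * q ^ K * ‖u‖ ^ 2)) :=
              mul_le_mul_of_nonneg_left h7 hSp.le
          _ = _ := by ring

end Pool.Agent.N49.FF
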